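import Pool.Agent.Q254.Gonal.Example

/-!
# The worst-case ratio between graph and metric graph gonality is at least 5/4

`G.dgon 1` is the divisorial gonality of the multigraph `G` and `G.mdgon 1` is the divisorial
gonality of its metric graph with unit edge lengths; the definitions are in
`Pool.Agent.Q254.Gonal.Metric` (and `Pool.Agent.Q254.Gonal.PL` for piecewise linear functions).
-/

set_option autoImplicit false

namespace Pool.Agent.Results.MP_806935_co.FiveQuarters

open Pool.Agent.Q254.Gonal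

theorem connected0 : Small.G0.Connected := by
  set R : Fin 7 → Fin 7 → Prop := fun a b =>
    ∃ e, (Small.G0.src e = a ∧ Small.G0.tgt e = b) ∨ (Small.G0.src e = b ∧ Small.G0.tgt e = a)
    with hR
  have hsymm : Symmetric R := fun a b ⟨e, he⟩ => ⟨e, he.symm⟩
  have r1 : Relation.ReflTransGen R 1 1 := Relation.ReflTransGen.refl
  have r0 : Relation.ReflTransGen R 1 0 := r1.tail ⟨0, Or.inr ⟨rfl, rfl⟩⟩
  have r2 : Relation.ReflTransGen R 1 2 := r0.tail ⟨1, Or.inl ⟨rfl, rfl⟩⟩
  have r3 : Relation.ReflTransGen R 1 3 := r0.tail ⟨2, Or.inl ⟨rfl, rfl⟩⟩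
  have r4 : Relation.ReflTransGen R 1 4 := r1.tail ⟨6, Or.inl ⟨rfl, rfl⟩⟩
  have r5 : Relation.ReflTransGen R 1 5 := r2.tail ⟨9, Or.inl ⟨rfl, rfl⟩⟩
  have r6 : Relation.ReflTransGen R 1 6 := r3.tail ⟨12, Or.inl ⟨rfl, rfl⟩⟩
  have hall : ∀ x, Relation.ReflTransGen R 1 x := by
    intro u
    fin_cases u
    · exact r0
    · exact r1
    · exact r2
    · exact r3
    · exact r4
    · exact r5
    · exact r6
  have hrev : ∀ x, Relation.ReflTransGen R x 1 := by
    intro x
    induction hall x with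
    | refl => exact Relation.ReflTransGen.refl
    | tail _ h2 ih => exact Relation.ReflTransGen.head (hsymm h2) ih
  intro x y
  exact (hrev x).trans (hall y)

/-- If `dgon(G) ≤ c * dgon(Γ(G))` for all finite connected loopless multigraphs then `c ≥ 5/4`. -/
theorem result (c : ℝ) (h : ∀ (V E : Type) (_ : Fintype V) (_ : Fintype E) (_ : DecidableEq V)
    (G : MGraph V E), G.Connected → (G.dgon 1 : ℝ) ≤ c * (G.mdgon 1 : ℝ)) : 5 / 4 ≤ c := by
  have h1 := h _ _ inferInstance inferInstance inferInstance Small.G0 connected0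
  have h2 : (5 : ℝ) ≤ (Small.G0.dgon 1 : ℝ) := by exact_mod_cast Example.five_le
  have h3 : (Small.G0.mdgon 1 : ℝ) ≤ 4 := by exact_mod_cast Example.le_four
  have h4 : (0 : ℝ) ≤ (Small.G0.mdgon 1 : ℝ) := Nat.cast_nonneg _
  by_contra hc
  push Not at hc
  have h5 : c * (Small.G0.mdgon 1 : ℝ) ≤ 5 / 4 * (Small.G0.mdgon 1 : ℝ) :=
    mul_le_mul_of_nonneg_right hc.le h4
  rcases h4.eq_or_lt with h6 | h6
  · rw [← h6, mul_zero] at h1
    linarith
  · have h7 : c * (Small.G0.mdgon 1 : ℝ) < 5 / 4 * (Small.G0.mdgon 1 : ℝ) :=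
      mul_lt_mul_of_pos_right hc h6
    linarith

end Pool.Agent.Results.MP_806935_co.FiveQuarters
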